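import Pool.Agent.H34.TAM.Stmts

/-! Row QDE of the board tam (MP_286349_an). -/

set_option autoImplicit false

noncomputable section

open Filter
open scoped Topology

namespace Pool.TAM

open Pool.CGR Pool.CGS

namespace QDEx

theorem pe_eq {α A : Type} [Ring A] [Algebra ℂ A] (x : α → A) (P : List α →₀ ℂ) :
    pe x P = Finsupp.linearCombination ℂ (fun w => ev x w) P := by
  rw [Finsupp.linearCombination_apply]; rfl

theorem dp_eq {α A : Type} [DecidableEq α] [Ring A] [Algebra ℂ A] (τ : A →ₗ[ℂ] ℂ) (x : α → A)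
    (i : α) (P : List α →₀ ℂ) :
    dp τ x i P = Finsupp.linearCombination ℂ (fun w => dq (fun w => τ (ev x w)) i w) P := by
  rw [Finsupp.linearCombination_apply]; rfl

theorem pe_single {α A : Type} [Ring A] [Algebra ℂ A] (x : α → A) (w : List α) (r : ℂ) :
    pe x (Finsupp.single w r) = r • ev x w := by
  rw [pe_eq, Finsupp.linearCombination_single]

theorem pe_add {α A : Type} [Ring A] [Algebra ℂ A] (x : α → A) (P Q : List α →₀ ℂ) :
    pe x (P + Q) = pe x P + pe x Q := by
  rw [pe_eq, pe_eq, pe_eq, map_add]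

theorem pe_smul {α A : Type} [Ring A] [Algebra ℂ A] (x : α → A) (r : ℂ) (P : List α →₀ ℂ) :
    pe x (r • P) = r • pe x P := by
  rw [pe_eq, pe_eq, map_smul]

theorem pe_zero {α A : Type} [Ring A] [Algebra ℂ A] (x : α → A) :
    pe x (0 : List α →₀ ℂ) = 0 := by
  rw [pe_eq, map_zero]

section dpl

variable {α A : Type} [DecidableEq α] [Ring A] [Algebra ℂ A] (τ : A →ₗ[ℂ] ℂ) (x : α → A) (i : α)

theorem dp_single (w : List α) (r : ℂ) :
    dp τ x i (Finsupp.single w r) = r * dq (fun w => τ (ev x w)) i w := by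
  rw [dp_eq, Finsupp.linearCombination_single, smul_eq_mul]

theorem dp_add (P Q : List α →₀ ℂ) : dp τ x i (P + Q) = dp τ x i P + dp τ x i Q := by
  rw [dp_eq, dp_eq, dp_eq, map_add]

theorem dp_smul (r : ℂ) (P : List α →₀ ℂ) : dp τ x i (r • P) = r * dp τ x i P := by
  rw [dp_eq, dp_eq, map_smul, smul_eq_mul]

theorem dp_zero : dp τ x i (0 : List α →₀ ℂ) = 0 := by
  rw [dp_eq, map_zero]

end dpl

section sbl

variable {m : ℕ} (i : Fin m) (p : List (Fin m) →₀ ℂ)

theorem sbp_eq (P : List (Fin m) →₀ ℂ) :
    sbp i p P = Finsupp.linearCombination ℂ (fun w => sb i p w) P := by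
  rw [Finsupp.linearCombination_apply]; rfl

theorem sbp_single (w : List (Fin m)) (r : ℂ) : sbp i p (Finsupp.single w r) = r • sb i p w := by
  rw [sbp_eq, Finsupp.linearCombination_single]

theorem sbp_add (P Q : List (Fin m) →₀ ℂ) : sbp i p (P + Q) = sbp i p P + sbp i p Q := by
  rw [sbp_eq, sbp_eq, sbp_eq, map_add]

theorem sbp_zero : sbp i p 0 = 0 := by
  rw [sbp_eq, map_zero]

theorem cw_single (c d w : List (Fin m)) (r : ℂ) :
    cw c d (Finsupp.single w r) = Finsupp.single (c ++ w ++ d) r := by
  unfold cw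
  rw [Finsupp.mapDomain_single]

theorem cw_add (c d : List (Fin m)) (P Q : List (Fin m) →₀ ℂ) :
    cw c d (P + Q) = cw c d P + cw c d Q := by
  unfold cw
  rw [Finsupp.mapDomain_add]

theorem cw_zero (c d : List (Fin m)) : cw c d (0 : List (Fin m) →₀ ℂ) = 0 := by
  unfold cw
  rw [Finsupp.mapDomain_zero]

end sbl

/-- left multiplications -/
abbrev ml {α A : Type} [Ring A] [Algebra ℂ A] (x : α → A) : α → Module.End ℂ A :=
  fun j => (LinearMap.mulLeft ℂ (x j) : Module.End ℂ A)

theorem ev_ml {α A : Type} [Ring A] [Algebra ℂ A] (x : α → A) (w : List α) :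
    ev (ml x) w = (LinearMap.mulLeft ℂ (ev x w) : Module.End ℂ A) :=
  DVEaux.ev_mulLeft x w

theorem pe_ml {α A : Type} [Ring A] [Algebra ℂ A] (x : α → A) (p : List α →₀ ℂ) :
    pe (ml x) p = (LinearMap.mulLeft ℂ (pe x p) : Module.End ℂ A) := by
  induction p using Finsupp.induction_linear with
  | zero =>
    rw [pe_zero, pe_zero]
    refine LinearMap.ext fun a => ?_
    simp
  | add P Q hP hQ =>
    rw [pe_add, pe_add, hP, hQ]
    refine LinearMap.ext fun a => ?_
    simp [add_mul]
  | single w r =>
    rw [pe_single, pe_single, ev_ml]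
    refine LinearMap.ext fun a => ?_
    simp

theorem el_ml {m : ℕ} {A : Type} [Ring A] [Algebra ℂ A] (x : Fin m → A) (i : Fin m)
    (p : List (Fin m) →₀ ℂ) : ml (el x i p) = el (ml x) i p := by
  funext j
  unfold el
  by_cases h : j = i
  · subst h
    rw [Function.update_self, pe_ml]
    refine LinearMap.ext fun a => ?_
    simp [ml, add_mul]
  · rw [Function.update_of_ne h]
    simp only [ml]
    rw [Function.update_of_ne h]

/-- `dv` is linear in the direction -/
theorem dv_smul {α B : Type} [DecidableEq α] [Ring B] [Algebra ℂ B] (x : α → B) (i : α) (r : ℂ)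
    (a : B) (w : List α) : dv x i (r • a) w = r • dv x i a w := by
  unfold dv
  rw [Finset.smul_sum]
  refine Finset.sum_congr rfl fun k _ => ?_
  split_ifs
  · simp
  · simp

/-- `a ↦ dv x i a w` -/
def dvL {α B : Type} [DecidableEq α] [Ring B] [Algebra ℂ B] (x : α → B) (i : α) (w : List α) :
    B →ₗ[ℂ] B where
  toFun a := dv x i a w
  map_add' a b := (dvc_thm α B x i a).2.2.2 b w
  map_smul' r a := dv_smul x i r a w

theorem dvL_apply {α B : Type} [DecidableEq α] [Ring B] [Algebra ℂ B] (x : α → B) (i : α)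
    (w : List α) (a : B) : dvL x i w a = dv x i a w := rfl

theorem dv_none {α B : Type} [DecidableEq α] [Ring B] (x : α → B) (i : α) (a : B) (w : List α)
    (h : ∀ j ∈ w, j ≠ i) : dv x i a w = 0 := by
  unfold dv
  refine Finset.sum_eq_zero fun k _ => ?_
  rw [if_neg]
  intro hk
  exact h i (List.mem_of_getElem? hk) rfl

/-- `dp` of a polynomial by operators -/
theorem dp_op {α A : Type} [DecidableEq α] [Ring A] [Algebra ℂ A] (τ : A →ₗ[ℂ] ℂ) (x : α → A)
    (k : α) (Q : List α →₀ ℂ) :
    τ ((Q.sum fun W r => r • dv (ml x) k (ee τ) W) 1) = dp τ x k Q := by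
  unfold dp
  rw [Finsupp.sum, Finsupp.sum, LinearMap.sum_apply, map_sum]
  refine Finset.sum_congr rfl fun W _ => ?_
  rw [dve_thm α A τ x k W, LinearMap.smul_apply, map_smul, smul_eq_mul]

end QDEx

open QDEx in
theorem qde_thm (h1 : SUBStmt) : QDEStmt := by
  intro m A _ τ hτ x i p hp
  -- the substitution at the level of values
  have hpe : ∀ P : List (Fin m) →₀ ℂ, pe (el x i p) P = pe x (sbp i p P) := by
    intro P
    induction P using Finsupp.induction_linear with
    | zero => rw [sbp_zero, pe_zero, pe_zero]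
    | add P Q hP hQ => rw [sbp_add, pe_add, pe_add, hP, hQ]
    | single w r => rw [sbp_single, pe_smul, pe_single, (h1 m A x i p hp w).1]
  -- the letter `i`
  have hwi : ∀ w : List (Fin m),
      dq (fun w => τ (ev (el x i p) w)) i w = dp τ x i (sb i p w) := by
    intro w
    rw [dve_thm _ _ τ (el x i p) i w, ← dp_op]
    have e1 := (h1 m (Module.End ℂ A) (ml x) i p hp w).2.1 (ee τ)
    rw [e1, ← el_ml]
  have hev : ∀ v : List (Fin m), (∀ j ∈ v, j ≠ i) → ev (el x i p) v = ev x v :=
    fun v hv => ((h1 m A x i p hp v).2.2.2 v hv).1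
  -- the key identity
  have hkey : ∀ (c d w : List (Fin m)), (∀ j ∈ c, j ≠ i) → (∀ j ∈ d, j ≠ i) →
      τ ((dv (el (ml x) i p) i (ev (ml x) c * ee τ * ev (ml x) d) w) 1) =
        dp τ x i (sb i p (c ++ w ++ d)) := by
    intro c d w hc hd
    rw [← hwi, dve_thm _ _ τ (el x i p) i (c ++ w ++ d)]
    have e2 := (dvc_thm (Fin m) (Module.End ℂ A) (ml (el x i p)) i (ee τ)).2.2.1
    have e3 : dv (ml (el x i p)) i (ee τ) (c ++ w ++ d) =
        ev (ml (el x i p)) c * dv (ml (el x i p)) i (ee τ) w * ev (ml (el x i p)) d := by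
      rw [e2, e2, dv_none _ _ _ c hc, dv_none _ _ _ d hd, zero_mul, mul_zero, zero_add, add_zero]
    show _ = τ ((dv (ml (el x i p)) i (ee τ) (c ++ w ++ d)) 1)
    rw [e3, ← el_ml, ev_ml, ev_ml, ev_ml, ev_ml, hev c hc, hev d hd]
    unfold dv
    rw [LinearMap.sum_apply, map_sum, Finset.mul_sum, Finset.sum_mul, LinearMap.sum_apply,
      map_sum]
    refine Finset.sum_congr rfl fun s _ => ?_
    by_cases h : w[s]? = some i
    · rw [if_pos h, if_pos h, ev_ml, ev_ml]
      simp only [ee, Module.End.mul_apply, LinearMap.mulLeft_apply, LinearMap.smulRight_apply,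
        mul_one, map_smul, smul_eq_mul]
      rw [hτ.comm (ev x d), hτ.comm (ev x c)]
    · rw [if_neg h, if_neg h]
      simp
  -- the other letters
  have hwk : ∀ (k : Fin m), k ≠ i → ∀ w : List (Fin m),
      dq (fun w => τ (ev (el x i p) w)) k w = dp τ x k (sb i p w) -
        p.sum fun v r => r * ∑ l ∈ Finset.range v.length, if v[l]? = some k then
          dp τ x i (sb i p (v.take l ++ w ++ v.drop (l + 1))) else 0 := by
    intro k hk w
    have e1 := (h1 m (Module.End ℂ A) (ml x) i p hp w).2.2.1 k (ee τ) hk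
    have e2 := congrArg (fun T : Module.End ℂ A => τ (T 1)) e1
    simp only [LinearMap.add_apply, map_add] at e2
    rw [dp_op] at e2
    rw [e2]
    have e4 : dq (fun w => τ (ev (el x i p) w)) k w =
        τ ((dv (el (ml x) i p) k (ee τ) w) 1) := by
      rw [← el_ml]
      exact dve_thm _ _ τ (el x i p) k w
    rw [e4]
    have e3 : τ ((dv (el (ml x) i p) i (p.sum fun v r => r • dv (ml x) k (ee τ) v) w) 1) =
        p.sum fun v r => r * ∑ l ∈ Finset.range v.length, if v[l]? = some k then
          dp τ x i (sb i p (v.take l ++ w ++ v.drop (l + 1))) else 0 := by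
      rw [← dvL_apply, Finsupp.sum, map_sum, LinearMap.sum_apply, map_sum, Finsupp.sum]
      refine Finset.sum_congr rfl fun v hv => ?_
      rw [map_smul, LinearMap.smul_apply, map_smul, smul_eq_mul]
      congr 1
      unfold dv
      rw [map_sum, LinearMap.sum_apply, map_sum]
      refine Finset.sum_congr rfl fun l _ => ?_
      have hvi : ∀ j ∈ v, j ≠ i := fun j hj => hp v hv j hj
      by_cases h : v[l]? = some k
      · rw [if_pos h, if_pos h, dvL_apply]
        exact hkey _ _ w (fun j hj => hvi j (List.mem_of_mem_take hj))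
          (fun j hj => hvi j (List.mem_of_mem_drop hj))
      · rw [if_neg h, if_neg h, map_zero]
        simp
    rw [e3, add_sub_cancel_right]
  intro P
  refine ⟨hpe P, ?_, ?_, ?_⟩
  · induction P using Finsupp.induction_linear with
    | zero => rw [sbp_zero, dp_zero, dp_zero]
    | add P Q hP hQ => rw [sbp_add, dp_add, dp_add, hP, hQ]
    | single w r => rw [sbp_single, dp_smul, dp_single, hwi]
  · intro k hk
    induction P using Finsupp.induction_linear with
    | zero => simp [cw_zero, sbp_zero, dp_zero]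
    | add P Q hP hQ =>
      rw [sbp_add, dp_add, dp_add, hP, hQ]
      have e : (p.sum fun v r => r * ∑ l ∈ Finset.range v.length, if v[l]? = some k then
          dp τ x i (sbp i p (cw (v.take l) (v.drop (l + 1)) (P + Q))) else 0) =
          (p.sum fun v r => r * ∑ l ∈ Finset.range v.length, if v[l]? = some k then
          dp τ x i (sbp i p (cw (v.take l) (v.drop (l + 1)) P)) else 0) +
          (p.sum fun v r => r * ∑ l ∈ Finset.range v.length, if v[l]? = some k then
          dp τ x i (sbp i p (cw (v.take l) (v.drop (l + 1)) Q)) else 0) := by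
        simp only [Finsupp.sum]
        rw [← Finset.sum_add_distrib]
        refine Finset.sum_congr rfl fun v _ => ?_
        rw [← mul_add, ← Finset.sum_add_distrib]
        congr 1
        refine Finset.sum_congr rfl fun l _ => ?_
        split_ifs
        · rw [cw_add, sbp_add, dp_add]
        · rw [add_zero]
      rw [e]
      ring
    | single w r =>
      rw [sbp_single, dp_smul, dp_single, hwk k hk w, mul_sub]
      congr 1
      simp only [Finsupp.sum]
      rw [Finset.mul_sum]
      refine Finset.sum_congr rfl fun v _ => ?_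
      rw [mul_left_comm]
      congr 1
      rw [Finset.mul_sum]
      refine Finset.sum_congr rfl fun l _ => ?_
      split_ifs
      · rw [cw_single, sbp_single, dp_smul]
      · rw [mul_zero]
  · intro c d hc hd
    rw [← hpe, ← hpe]
    induction P using Finsupp.induction_linear with
    | zero => rw [cw_zero, pe_zero, mul_zero, zero_mul]
    | add P Q hP hQ => rw [cw_add, pe_add, pe_add, hP, hQ, mul_add, add_mul]
    | single w r =>
      rw [cw_single, pe_single, pe_single, ← hev c hc, ← hev d hd]
      simp [ev, mul_assoc]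

end Pool.TAM
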